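import Pool.Agent.Lib.MP_df8f2d_nt.Chain

/-!
Reduction of a doubling orbit to the chain of its odd parts.
-/

open Finset
open scoped Nat

namespace Pool.Agent.Lib.MP_df8f2d_nt

lemma prime_pow_of_tot {u : ℕ} (hu : Odd u) (h1 : u ≠ 1) (h4 : ¬4 ∣ φ u) :
    ∃ p t, p.Prime ∧ u = p ^ (t + 1) := by
  have hp := Nat.minFac_prime h1
  obtain ⟨e, m, hm, h⟩ := Nat.exists_eq_pow_mul_and_not_dvd hu.pos.ne' _ hp.ne_one
  obtain _ | t := e
  · exact absurd (Nat.minFac_dvd u) (by simpa [← show u = m by simpa using h] using hm)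
  refine ⟨_, t, hp, ?_⟩
  by_contra h2
  have h3 : ∀ d, d ∣ u → d ≠ 1 → 2 ∣ φ d := fun d hd hd1 => by
    obtain ⟨c, hc⟩ := hu.of_dvd_nat hd
    exact (Nat.totient_even (by omega)).two_dvd
  refine h4 ?_
  rw [h, Nat.totient_mul (((Nat.Prime.coprime_iff_not_dvd hp).2 hm).pow_left _)]
  exact mul_dvd_mul (h3 _ (Dvd.intro _ h.symm) (Nat.one_lt_pow t.succ_ne_zero hp.one_lt).ne')
    (h3 _ (Dvd.intro_left _ h.symm) fun h5 => h2 (by rw [h5, mul_one] at h; exact h))

lemma odd_part_unique {e e' u u' : ℕ} (hu : Odd u) (hu' : Odd u') (h : 2 ^ e * u = 2 ^ e' * u') :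
    e = e' ∧ u = u' := by
  have h1 : ∀ {e u : ℕ}, Odd u → (2 ^ e * u).factorization 2 = e := fun {e u} hu => by
    rw [Nat.factorization_mul (by positivity) hu.pos.ne', Nat.Prime.factorization_pow Nat.prime_two]
    simp [Nat.factorization_eq_zero_of_not_dvd hu.not_two_dvd_nat]
  obtain rfl : e = e' := by rw [← h1 (e := e) hu, h, h1 hu']
  exact ⟨rfl, Nat.eq_of_mul_eq_mul_left (by positivity) h⟩

lemma exists_shift {u : ℕ → ℕ} {r : ℕ} (hr : 0 < r) (h : ∀ k, u (k + r) = u k) (j k : ℕ) :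
    ∃ i < r, u k = u (j + i) := by
  have h1 : Function.Periodic (fun i => u (j + i)) r := fun i => by
    simp only [← add_assoc, h]
  obtain ⟨m, hm⟩ := Nat.exists_eq_add_of_le (le_add_left (Nat.le_mul_of_pos_right j hr) : j ≤ k + j * r)
  refine ⟨m % r, Nat.mod_lt _ hr, ?_⟩
  have h2 : Function.Periodic u r := h
  exact (h2.nat_mul j k).symm.trans ((congrArg u hm).trans (h1.map_mod_nat m).symm)

theorem orbit_bound {e u : ℕ → ℕ} {r K : ℕ} (hr : 0 < r) (hu : ∀ k, Odd (u k))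
    (hstep : ∀ k, 2 ^ (e (k + 1) + 1) * u (k + 1)
      = 2 ^ (e k + 1) * u k + φ (2 ^ (e k + 1) * u k))
    (hper : ∀ k, 2 ^ (e (k + r) + 1) * u (k + r) = 2 * (2 ^ (e k + 1) * u k))
    (hK : ∀ k, (2 ^ (e k + 1) * u k).primeFactors.card ≤ K) :
    r ≤ K ∧ ∀ k, u k < 2 ^ 2 ^ K ^ 2 := by
  have h1 : ∀ k, e (k + r) + 1 = e k + 1 + 1 ∧ u (k + r) = u k := fun k =>
    odd_part_unique (hu _) (hu _) (by rw [hper]; ring)
  have h2 : ∀ k, 2 ^ (e (k + 1) + 1) * u (k + 1) = 2 ^ e k * (2 * u k + φ (u k)) := fun k => by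
    rw [hstep, Nat.totient_mul ((Nat.coprime_two_left.2 (hu k)).pow_left _),
      Nat.totient_prime_pow_succ Nat.prime_two]
    ring
  have h3 : ∀ k, (u k).primeFactors.card < K := fun k => by
    refine lt_of_lt_of_le (card_lt_card ⟨Nat.primeFactors_mono (dvd_mul_left _ _)
      (mul_pos (by positivity) (hu k).pos).ne', fun h => ?_⟩) (hK k)
    exact (hu k).not_two_dvd_nat (Nat.dvd_of_mem_primeFactors (h (Nat.prime_two.mem_primeFactors
      (Dvd.dvd.mul_right (dvd_pow_self 2 (by omega)) _) (mul_pos (by positivity) (hu k).pos).ne')))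
  by_cases h : ∃ j, u j = 1
  · obtain ⟨j, hj⟩ := h
    have h4 := odd_part_unique (e' := e j) (u' := 3) (hu _) (by decide) (by rw [h2 j, hj]; simp)
    have h5 : 2 ^ (e (j + 2) + 1) * u (j + 2) = 2 ^ (e (j + r) + 1) * u (j + r) := by
      rw [h2 (j + 1), hper, hj, h4.2, ← h4.1, Nat.totient_prime Nat.prime_three]
      ring
    have h6 : StrictMono fun k => 2 ^ (e k + 1) * u k := strictMono_nat_of_lt_succ fun k => by
      rw [hstep]
      exact lt_add_of_pos_right _ (Nat.totient_pos.2 (mul_pos (by positivity) (hu k).pos))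
    have h7 : j + 2 = j + r := h6.injective h5
    have h8 := h3 (j + 1)
    rw [h4.2, Nat.prime_three.primeFactors, card_singleton] at h8
    refine ⟨by omega, fun k => lt_of_lt_of_le (?_ : _ < 2 ^ 2) (Nat.pow_le_pow_right two_pos
      (Nat.le_self_pow (by positivity) 2))⟩
    obtain ⟨i, hi, h9⟩ := exists_shift hr (fun k => (h1 k).2) j k
    obtain rfl | rfl : i = 0 ∨ i = 1 := by omega
    · rw [h9, add_zero, hj]; norm_num
    · rw [h9, h4.2]; norm_num
  push Not at h
  have h4 : ∀ k, ∃ f, φ (u k) = 2 * f := fun k => by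
    obtain ⟨c, hc⟩ := hu k
    exact (Nat.totient_even (by have := h k; omega)).two_dvd
  choose f hf using h4
  have h5 : ∀ k, 2 ^ e (k + 1) * u (k + 1) = 2 ^ e k * (u k + f k) := fun k =>
    Nat.eq_of_mul_eq_mul_left two_pos (by linear_combination h2 k + 2 ^ e k * hf k)
  have h6 : Monotone e := monotone_nat_of_le_succ fun k =>
    (Nat.pow_dvd_pow_iff_le_right one_lt_two).1
      (((Nat.coprime_two_left.2 (hu _)).pow_left _).dvd_of_dvd_mul_right (Dvd.intro _ (h5 k).symm))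
  obtain ⟨j, hj⟩ : ∃ j, e j < e (j + 1) := by
    by_contra! hc
    have := antitone_nat_of_succ_le hc r.zero_le
    have := (h1 0).1
    rw [zero_add] at this
    omega
  have h7 : ∀ i < r, e (j + 1 + i) = e j + 1 := fun i hi => by
    have := h6 (by omega : j + 1 ≤ j + 1 + i)
    have := h6 (by omega : j + 1 + i ≤ j + r)
    have := (h1 j).1
    omega
  have h8 : 2 * u (j + 1) = u j + f j := Nat.eq_of_mul_eq_mul_left (by positivity : 0 < 2 ^ e j)
    (by rw [← h5, show e (j + 1) = e j + 1 from h7 0 hr]; ring)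
  obtain ⟨p, t, hp, h9⟩ := prime_pow_of_tot (hu j) (h j) (by
    obtain ⟨c, hc⟩ := hu j
    rw [hf]
    omega)
  have h10 : 4 * u (j + 1) + p ^ t = 3 * p ^ (t + 1) := by
    have := hf j
    obtain ⟨q, rfl⟩ := Nat.exists_eq_add_of_le' hp.one_le
    rw [h9, Nat.totient_prime_pow_succ hp, Nat.add_sub_cancel] at this
    rw [h9] at h8
    linear_combination 2 * h8 - this
  have h11 : 7 ≤ p := by
    by_contra! hc
    have h12 := hu j
    have h13 := hp.two_le
    obtain ⟨c, hc'⟩ := hu (j + 1)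
    rw [h9] at h12
    rw [pow_succ] at h10
    obtain ⟨d, hd⟩ := h12.of_dvd_nat (pow_dvd_pow p t.le_succ)
    obtain ⟨d', hd'⟩ := h12.of_dvd_nat (dvd_pow_self p t.succ_ne_zero)
    interval_cases p <;> omega
  obtain ⟨s, rfl⟩ := Nat.exists_eq_add_of_le' hr
  have h12 := h3 j
  rw [h9, Nat.primeFactors_prime_pow t.succ_ne_zero hp, card_singleton] at h12
  obtain ⟨h13, h14⟩ := chain_bound (v := fun i => u (j + 1 + i)) (s := s) hp h11 (fun i hi => by
      have h15 := h5 (j + 1 + i)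
      rw [add_assoc _ i, h7 i (by omega), h7 (i + 1) (by omega)] at h15
      have := Nat.eq_of_mul_eq_mul_left (by positivity) h15
      rw [hf]
      omega) h10 (by rw [← h9, ← (h1 j).2]; congr 1; ring) (fun _ _ => hu _) h12 fun _ _ => h3 _
  refine ⟨h13, fun k => ?_⟩
  obtain ⟨i, hi, h15⟩ := exists_shift hr (fun k => (h1 k).2) (j + 1) k
  exact h15 ▸ h14 i (by omega)

end Pool.Agent.Lib.MP_df8f2d_nt
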