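import Pool.Agent.Lib.MP_df8f2d_nt.Gap

/-!
The chain of odd parts between two consecutive doublings.
-/

open Finset
open scoped Nat

namespace Pool.Agent.Lib.MP_df8f2d_nt

lemma prod_lower (S : Finset ℕ) (hS : ∀ q ∈ S, 3 ≤ q) :
    2 / ((S.card : ℚ) + 2) ≤ ∏ q ∈ S, (1 - (q : ℚ)⁻¹) := by
  induction S using Finset.induction_on_max with
  | empty => simp
  | insert a S ha ih =>
    have h1 : a ∉ S := fun h => (ha a h).false
    have h2 : S.card ≤ a - 3 := (card_le_card fun q hq =>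
      mem_Ico.2 ⟨hS q (mem_insert_of_mem hq), ha q hq⟩).trans_eq (Nat.card_Ico 3 a)
    have h3 := hS a (mem_insert_self _ _)
    have h4 : (S.card : ℚ) + 3 ≤ a := by exact_mod_cast (by omega : S.card + 3 ≤ a)
    have h5 : (a : ℚ)⁻¹ ≤ ((S.card : ℚ) + 3)⁻¹ := inv_anti₀ (by positivity) h4
    have h6 : ((S.card : ℚ) + 3)⁻¹ ≤ 1 := inv_le_one_of_one_le₀ (by linarith [S.card.cast_nonneg (α := ℚ)])
    rw [prod_insert h1, card_insert_of_notMem h1]
    refine le_trans (le_of_eq ?_) (mul_le_mul (sub_le_sub_left h5 1)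
      (ih fun q hq => hS q (mem_insert_of_mem hq)) (by positivity) (by linarith))
    push_cast
    field_simp
    ring

lemma tot_lower {v : ℕ} (hv : Odd v) : 2 * v ≤ (v.primeFactors.card + 2) * φ v := by
  have h1 := prod_lower v.primeFactors fun q hq => by
    have h2 := (Nat.prime_of_mem_primeFactors hq).two_le
    obtain ⟨c, h3⟩ := hv.of_dvd_nat (Nat.dvd_of_mem_primeFactors hq)
    omega
  rw [div_le_iff₀ (by positivity)] at h1
  have h2 := mul_le_mul_of_nonneg_left h1 (v.cast_nonneg (α := ℚ))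
  rw [← mul_assoc, ← Nat.totient_eq_mul_prod_factors] at h2
  exact_mod_cast (by linarith : (2 : ℚ) * v ≤ (v.primeFactors.card + 2) * φ v)

lemma cube_lt (k : ℕ) : (k + 1) * ((k + 2) ^ 2 + 2) < 2 ^ (2 * k + 3) := by
  induction k with
  | zero => norm_num
  | succ k ih =>
    rw [show 2 * (k + 1) + 3 = 2 * k + 3 + 2 by ring, pow_add]
    nlinarith [Nat.zero_le (k ^ 3), Nat.zero_le (k ^ 2)]

section
variable {v : ℕ → ℕ} {s p t : ℕ} (hp : p.Prime) (hp7 : 7 ≤ p)
  (hstep : ∀ i < s, 2 * v (i + 1) = 2 * v i + φ (v i))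
  (h0 : 4 * v 0 + p ^ t = 3 * p ^ (t + 1)) (hs : v s = p ^ (t + 1))
include hp hp7 hstep h0 hs

lemma exp_lt : t < s := by
  by_contra! h
  have hc : ∀ c, (p ^ c).Coprime 2 := fun c =>
    ((Nat.coprime_primes hp Nat.prime_two).2 (by omega)).pow_left c
  have h1 : ∀ i ≤ s, p ^ (t - i) ∣ v i := by
    intro i
    induction i with
    | zero =>
      refine fun _ => ((hc t).pow_right 2).dvd_of_dvd_mul_left ?_
      exact (Nat.dvd_add_iff_left dvd_rfl).2 (h0 ▸ (pow_dvd_pow p t.le_succ).mul_left 3)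
    | succ i ih =>
      intro hi
      have h2 := ih (by omega)
      rw [show t - i = t - (i + 1) + 1 by omega] at h2
      refine (hc _).dvd_of_dvd_mul_left ?_
      rw [hstep i hi]
      refine dvd_add (((pow_dvd_pow p (Nat.le_succ _)).trans h2).mul_left 2) ?_
      refine dvd_trans ?_ (Nat.totient_dvd_of_dvd h2)
      rw [Nat.totient_prime_pow_succ hp]
      exact dvd_mul_right _ _
  have h2 : ∀ i ≤ s, 2 * v i ≡ 2 * v 0 [MOD p - 1] := by
    intro i
    induction i with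
    | zero => exact fun _ => rfl
    | succ i ih =>
      intro hi
      have h3 : p - 1 ∣ φ (v i) := Nat.totient_prime hp ▸
        Nat.totient_dvd_of_dvd ((dvd_pow_self p (by omega)).trans (h1 i (by omega)))
      rw [hstep i hi]
      simpa using (ih (by omega)).add ((Nat.modEq_zero_iff_dvd).2 h3)
  have h3 : ∀ c, p ^ c ≡ 1 [MOD p - 1] := fun c => by
    simpa using ((Nat.modEq_iff_dvd' hp.one_le).2 dvd_rfl).symm.pow c
  have h4 : 2 * (2 * v 0) + p ^ t ≡ 2 * (2 * 1) + 1 [MOD p - 1] :=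
    (((h2 s le_rfl).symm.trans (hs ▸ (h3 _).mul_left 2)).mul_left 2).add (h3 t)
  rw [← mul_assoc, show 2 * 2 = 4 from rfl, h0] at h4
  have h5 := (Nat.modEq_iff_dvd' (by norm_num)).1 (((h3 _).mul_left 3).symm.trans h4)
  have := Nat.le_of_dvd (by norm_num) h5
  omega

lemma chain_bound (hodd : ∀ i < s, Odd (v i)) {K : ℕ} (hK2 : 2 ≤ K)
    (hK : ∀ i < s, (v i).primeFactors.card < K) :
    s < K ∧ ∀ i ≤ s, v i < 2 ^ 2 ^ K ^ 2 := by
  have ht := exp_lt hp hp7 hstep h0 hs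
  have hmono : ∀ i j, i ≤ j → j ≤ s → v i ≤ v j := fun i j hij => by
    induction j, hij using Nat.le_induction with
    | base => exact fun _ => le_rfl
    | succ j _ ih => exact fun hj => by linarith [ih (by omega), hstep j hj, (φ (v j)).zero_le]
  have hP : 0 < p ^ t := pow_pos hp.pos t
  have h1 : ∀ i ≤ s, (K + 1 + i) * v 0 ≤ (K + 1) * v i := by
    intro i
    induction i with
    | zero => simp
    | succ i ih =>
      intro hi
      have h2 := tot_lower (hodd i hi)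
      have h3 := Nat.mul_le_mul_right (φ (v i)) (by linarith [hK i hi] :
        (v i).primeFactors.card + 2 ≤ K + 1)
      nlinarith [ih (by omega), hstep i hi, hmono 0 i i.zero_le (by omega)]
  have hsK : s < K := by
    have h2 := h1 s le_rfl
    rw [hs, pow_succ] at h2
    rw [pow_succ] at h0
    have h3 : 20 * (p ^ t * p) ≤ 28 * v 0 := by nlinarith
    have h4 : 0 < v 0 := by nlinarith
    have h5 : 5 * (K + 1 + s) * v 0 ≤ 7 * (K + 1) * v 0 := by nlinarith
    have := Nat.le_of_mul_le_mul_right h5 h4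
    omega
  refine ⟨hsK, fun i hi => (hmono i s hi le_rfl).trans_lt ?_⟩
  obtain ⟨T, hT⟩ : ∃ T : Finset (ℕ × ℕ),
    T = (range s).biUnion fun i => (v i).primeFactors.image fun q => (i, q) := ⟨_, rfl⟩
  have hT1 : ∀ x, x ∈ T ↔ x.1 < s ∧ x.2 ∈ (v x.1).primeFactors := fun x => by
    simp only [hT, mem_biUnion, mem_image, mem_range]
    exact ⟨fun ⟨i, h1, q, h2, h3⟩ => h3 ▸ ⟨h1, h2⟩, fun h => ⟨x.1, h.1, x.2, h.2, rfl⟩⟩
  have hT2 : T.card ≤ s * (K - 1) := by
    rw [hT]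
    refine card_biUnion_le.trans ((sum_le_card_nsmul _ _ (K - 1) fun i hi => ?_).trans (by simp))
    exact card_image_le.trans (Nat.le_sub_one_of_lt (hK i (mem_range.1 hi)))
  have h2 : ∀ j ≤ s, (v j : ℚ) = v 0 * ∏ i ∈ range j,
      (1 + (∏ x ∈ T.filter (fun x => x.1 = i), (1 - 1 / (x.2 : ℚ))) / 2) := by
    intro j
    induction j with
    | zero => simp
    | succ j ih =>
      intro hj
      have h3 : T.filter (fun x => x.1 = j) = (v j).primeFactors.image fun q => (j, q) := by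
        ext x
        simp only [mem_filter, hT1, mem_image]
        exact ⟨fun ⟨h1, h2⟩ => ⟨x.2, h2 ▸ h1.2, h2 ▸ rfl⟩, fun ⟨q, h1, h2⟩ => h2 ▸ ⟨⟨hj, h1⟩, rfl⟩⟩
      have h4 : (2 : ℚ) * v (j + 1) = 2 * v j + φ (v j) := by exact_mod_cast hstep j hj
      rw [prod_range_succ, ← mul_assoc, ← ih (by omega), h3,
        prod_image fun a _ b _ h => (Prod.ext_iff.1 h).2]
      rw [Nat.totient_eq_mul_prod_factors] at h4
      simp only [one_div]
      linarith
  have h3 : (3 * p - 1) * FF s T = 4 * p := by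
    have h4 := h2 s le_rfl
    have h5 : (4 : ℚ) * v 0 + p ^ t = 3 * p ^ (t + 1) := by exact_mod_cast h0
    rw [hs, ← FF] at h4
    push_cast at h4
    refine mul_left_cancel₀ (by positivity : (p : ℚ) ^ t ≠ 0) ?_
    rw [pow_succ] at h4 h5
    linear_combination -FF s T * h5 - 4 * h4
  have hp' : (7 : ℚ) ≤ p := by exact_mod_cast hp7
  have h4 := FF_gap (s := s) (T := T) (fun x hx => ⟨(Nat.prime_of_mem_primeFactors
    ((hT1 x).1 hx).2).one_le, ((hT1 x).1 hx).1⟩) (by nlinarith)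
  have h5 : p ≤ (2 ^ (2 * s + T.card + 3)) ^ 2 ^ T.card := by
    have h6 : (2 * 2 ^ s * (T.card + 1) * (3 * 2 ^ s) : ℚ) ≤ 2 ^ (2 * s + T.card + 3) := by
      have h7 : (T.card + 1 : ℚ) ≤ 2 ^ T.card := by exact_mod_cast Nat.lt_two_pow_self
      calc _ = 6 * (2 ^ s * 2 ^ s) * (T.card + 1 : ℚ) := by ring
        _ ≤ 8 * (2 ^ s * 2 ^ s) * 2 ^ T.card := by gcongr; norm_num
        _ = _ := by ring
    have h7 := pow_le_pow_left₀ (by positivity) h6 (2 ^ T.card)
    obtain ⟨Y, hY⟩ : ∃ Y : ℚ, Y = (2 * 2 ^ s * (T.card + 1) * (3 * 2 ^ s)) ^ 2 ^ T.card := ⟨_, rfl⟩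
    rw [← hY] at h4 h7
    have h8 : (p : ℚ) < (2 ^ (2 * s + T.card + 3)) ^ 2 ^ T.card + 1 := by
      have h9 := mul_le_mul_of_nonneg_left h4 (by linarith : (0 : ℚ) ≤ 3 * p - 1)
      have h10 : (3 * p - 1) * (2 * Y * (FF s T - 4 / 3)) = 8 / 3 * Y := by
        linear_combination 2 * Y * h3
      have h11 : 0 ≤ Y := by rw [hY]; positivity
      linarith
    exact Nat.lt_succ_iff.1 (by exact_mod_cast h8)
  rw [hs]
  refine (Nat.pow_le_pow_left h5 _).trans_lt ?_
  rw [← pow_mul, ← pow_mul]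
  refine Nat.pow_lt_pow_right one_lt_two ?_
  obtain ⟨k, rfl⟩ := Nat.exists_eq_add_of_le' hK2
  have h6 : T.card ≤ (k + 1) ^ 2 := hT2.trans (by rw [sq]; exact Nat.mul_le_mul (by omega) le_rfl)
  calc _ ≤ (2 * (k + 1) + (k + 1) ^ 2 + 3) * (2 ^ (k + 1) ^ 2 * (k + 1)) := by
        gcongr
        · omega
        · norm_num
        · omega
    _ = 2 ^ (k + 1) ^ 2 * ((k + 1) * ((k + 2) ^ 2 + 2)) := by ring
    _ < 2 ^ (k + 1) ^ 2 * 2 ^ (2 * k + 3) := by gcongr; exact cube_lt k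
    _ = _ := by rw [← pow_add]; congr 1; ring

end

end Pool.Agent.Lib.MP_df8f2d_nt
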