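import Mathlib

/-!
A gap principle for monotone rational functions of finitely many integers.
-/

open Finset

namespace Pool.Agent.Lib.MP_df8f2d_nt

lemma gap {α : Type} [DecidableEq α] (q : α → ℕ) (T : Finset α) (F : Finset α → ℚ) {c D : ℚ}
    (hc : 1 ≤ c) (hD : 1 ≤ D) (hq : ∀ a ∈ T, 1 ≤ q a)
    (h1 : ∀ A ⊆ T, ∀ a ∈ T, a ∉ A → F A - c / q a ≤ F (insert a A) ∧ F (insert a A) ≤ F A)
    (h2 : ∀ A ⊆ T, 0 < F A → 1 ≤ D * (∏ a ∈ A, (q a : ℚ)) * F A) (h3 : 0 < F T) :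
    1 ≤ 2 * (2 * c * (T.card + 1) * D) ^ 2 ^ T.card * F T := by
  have h4 : ∀ (A : Finset α) (Q : ℚ), 0 < Q → ∀ B : Finset α, A ∪ B ⊆ T → (∀ a ∈ B, a ∉ A → Q ≤ q a) →
      F A - c * B.card / Q ≤ F (A ∪ B) ∧ F (A ∪ B) ≤ F A := by
    intro A Q hQ B
    induction B using Finset.induction_on with
    | empty => simp
    | insert b B hb ih =>
      intro hT hB
      rw [union_insert] at hT ⊢
      obtain ⟨h5, h6⟩ := ih ((subset_insert _ _).trans hT) fun a ha => hB a (mem_insert_of_mem ha)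
      have h7 : 0 ≤ c / Q := by positivity
      rw [card_insert_of_notMem hb, Nat.cast_succ, mul_add, add_div, mul_one]
      by_cases h : b ∈ A ∪ B
      · rw [insert_eq_of_mem h]
        exact ⟨by linarith, h6⟩
      · obtain ⟨h8, h9⟩ := h1 _ ((subset_insert _ _).trans hT) b (hT (mem_insert_self _ _)) h
        have h10 : c / q b ≤ c / Q := div_le_div_of_nonneg_left (by linarith) hQ
          (hB b (mem_insert_self _ _) fun h' => h (mem_union_left _ h'))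
        exact ⟨by linarith, by linarith⟩
  obtain ⟨e, he⟩ : ∃ e : ℚ, e = 2 * c * (T.card + 1) := ⟨_, rfl⟩
  have he1 : 1 ≤ e := by
    have : (0 : ℚ) ≤ T.card := by positivity
    nlinarith
  have hX : 1 ≤ e * D := one_le_mul_of_one_le_of_one_le he1 hD
  rw [← he]
  by_contra hcon
  push Not at hcon
  have h5 : ∀ A : Finset α, A ⊆ T → (∀ a ∈ T, a ∉ A → ∀ b ∈ A, q b ≤ q a) →
      e * (D * ∏ a ∈ A, (q a : ℚ)) ≤ (e * D) ^ 2 ^ A.card := by
    intro A
    induction A using Finset.induction_on_max_value q with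
    | empty => simp
    | insert b A hb hmax ih =>
      intro hT hA
      have hAT : A ⊆ T := (subset_insert _ _).trans hT
      have h6 : ∀ a ∈ T, a ∉ A → q b ≤ q a := fun a ha ha' => by
        by_cases h : a = b
        · rw [h]
        · exact hA a ha (by simp [h, ha']) b (mem_insert_self _ _)
      replace ih := ih hAT fun a ha ha' x hx => (hmax x hx).trans (h6 a ha ha')
      have hb1 : (1 : ℚ) ≤ q b := by exact_mod_cast hq b (hT (mem_insert_self _ _))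
      obtain ⟨h7, h8⟩ := h4 A (q b) (by linarith) T (union_subset hAT Subset.rfl)
        fun a ha ha' => by exact_mod_cast h6 a ha ha'
      rw [union_eq_right.2 hAT] at h7 h8
      obtain ⟨P, hP⟩ : ∃ P, P = D * ∏ a ∈ A, (q a : ℚ) := ⟨_, rfl⟩
      have hP0 : 0 ≤ P := by rw [hP]; positivity
      have h9 := h2 A hAT (by linarith)
      have h10 : (e * D) ^ 2 ^ A.card ≤ (e * D) ^ 2 ^ T.card :=
        pow_le_pow_right₀ hX (Nat.pow_le_pow_right (by norm_num) (card_le_card hAT))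
      rw [← hP] at h9 ih
      have h11 : P * F T ≤ 1 / 2 := by nlinarith
      have h12 : (q b : ℚ) ≤ e * P := by
        have h13 : 1 / 2 ≤ P * (c * T.card / q b) := by nlinarith
        rw [← mul_div_assoc, le_div_iff₀ (by linarith)] at h13
        nlinarith [mul_nonneg hP0 (by linarith : 0 ≤ c)]
      rw [prod_insert hb, card_insert_of_notMem hb, pow_succ, pow_mul, mul_left_comm D, ← hP,
        mul_left_comm, sq]
      exact mul_le_mul (h12.trans ih) ih (by positivity) (by positivity)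
  have h6 := h5 T Subset.rfl fun a ha ha' => absurd ha ha'
  have h7 := h2 T Subset.rfl h3
  have h8 : 0 ≤ D * ∏ a ∈ T, (q a : ℚ) := by positivity
  nlinarith [mul_le_mul_of_nonneg_right he1 h8]

/-- The product of the growth factors when only the primes in `A` are taken into account. -/
def FF (s : ℕ) (A : Finset (ℕ × ℕ)) : ℚ :=
  ∏ i ∈ range s, (1 + (∏ x ∈ A.filter (fun x => x.1 = i), (1 - 1 / (x.2 : ℚ))) / 2)

lemma fac_mem {A : Finset (ℕ × ℕ)} (hA : ∀ x ∈ A, 1 ≤ x.2) (i : ℕ) :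
    0 ≤ ∏ x ∈ A.filter (fun x => x.1 = i), (1 - 1 / (x.2 : ℚ)) ∧
      ∏ x ∈ A.filter (fun x => x.1 = i), (1 - 1 / (x.2 : ℚ)) ≤ 1 := by
  have h : ∀ x ∈ A.filter (fun x => x.1 = i), 0 ≤ 1 - 1 / (x.2 : ℚ) := fun x hx => by
    have : (1 : ℚ) ≤ x.2 := by exact_mod_cast hA x (mem_filter.1 hx).1
    rw [sub_nonneg, div_le_one (by linarith)]
    exact this
  exact ⟨prod_nonneg h, prod_le_one h fun x _ => sub_le_self _ (by positivity)⟩

lemma FF_step {s : ℕ} {A : Finset (ℕ × ℕ)} (hA : ∀ x ∈ A, 1 ≤ x.2) {a : ℕ × ℕ} (ha : a ∉ A)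
    (ha1 : 1 ≤ a.2) (has : a.1 < s) :
    FF s A - 2 ^ s / a.2 ≤ FF s (insert a A) ∧ FF s (insert a A) ≤ FF s A := by
  have h1 := mem_range.2 has
  have h0 : ∏ i ∈ (range s).erase a.1,
      (1 + (∏ x ∈ (insert a A).filter (fun x => x.1 = i), (1 - 1 / (x.2 : ℚ))) / 2)
      = ∏ i ∈ (range s).erase a.1,
        (1 + (∏ x ∈ A.filter (fun x => x.1 = i), (1 - 1 / (x.2 : ℚ))) / 2) :=
    prod_congr rfl fun i hi => by rw [filter_insert, if_neg (ne_of_mem_erase hi).symm]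
  rw [FF, FF, ← mul_prod_erase _ _ h1, ← mul_prod_erase _ _ h1, h0, filter_insert, if_pos rfl,
    prod_insert (by simp [ha])]
  obtain ⟨h2, h3⟩ := fac_mem hA a.1
  obtain ⟨y, hy⟩ : ∃ y, y = ∏ x ∈ A.filter (fun x => x.1 = a.1), (1 - 1 / (x.2 : ℚ)) := ⟨_, rfl⟩
  obtain ⟨R, hR⟩ : ∃ R, R = ∏ i ∈ (range s).erase a.1,
    (1 + (∏ x ∈ A.filter (fun x => x.1 = i), (1 - 1 / (x.2 : ℚ))) / 2) := ⟨_, rfl⟩
  have h4 : 0 ≤ R := hR ▸ prod_nonneg fun i _ => by linarith [(fac_mem hA i).1]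
  have h5 : R ≤ 2 ^ s := by
    rw [hR]
    refine (prod_le_prod (g := fun _ => 2) (fun i _ => by linarith [(fac_mem hA i).1])
      fun i _ => by linarith [(fac_mem hA i).2]).trans ?_
    rw [prod_const]
    exact pow_le_pow_right₀ one_le_two (card_erase_le.trans (card_range s).le)
  rw [← hy] at h2 h3 ⊢
  rw [← hR, div_eq_mul_one_div (2 ^ s : ℚ)]
  have h6 : 0 ≤ 1 / (a.2 : ℚ) := by positivity
  constructor
  · nlinarith [mul_le_mul_of_nonneg_right h5 h6, mul_nonneg (mul_nonneg h4 h6) (sub_nonneg.2 h3),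
      mul_nonneg h4 h6]
  · nlinarith [mul_nonneg (mul_nonneg h4 h6) h2]

lemma FF_int {s : ℕ} {A : Finset (ℕ × ℕ)} (hA : ∀ x ∈ A, 1 ≤ x.2 ∧ x.1 < s) :
    ∃ z : ℤ, 2 ^ s * (∏ x ∈ A, (x.2 : ℚ)) * FF s A = z := by
  refine ⟨∏ i ∈ range s, (2 * ∏ x ∈ A.filter (fun x => x.1 = i), (x.2 : ℤ)
    + ∏ x ∈ A.filter (fun x => x.1 = i), ((x.2 : ℤ) - 1)), ?_⟩
  rw [← prod_fiberwise_of_maps_to (g := fun x => x.1) (t := range s)
    fun x hx => mem_range.2 (hA x hx).2, FF, ← card_range s, ← prod_const, card_range,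
    ← prod_mul_distrib, ← prod_mul_distrib]
  push_cast
  refine prod_congr rfl fun i _ => ?_
  have h : ∏ x ∈ A.filter (fun x => x.1 = i), ((x.2 : ℚ) - 1)
      = (∏ x ∈ A.filter (fun x => x.1 = i), (x.2 : ℚ))
        * ∏ x ∈ A.filter (fun x => x.1 = i), (1 - 1 / (x.2 : ℚ)) := by
    rw [← prod_mul_distrib]
    refine prod_congr rfl fun x hx => ?_
    have : (x.2 : ℚ) ≠ 0 := by exact_mod_cast (by linarith [(hA x (mem_filter.1 hx).1).1] : x.2 ≠ 0)
    field_simp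
  rw [h]
  ring

theorem FF_gap {s : ℕ} {T : Finset (ℕ × ℕ)} (hT : ∀ x ∈ T, 1 ≤ x.2 ∧ x.1 < s)
    (h : 4 / 3 < FF s T) :
    1 ≤ 2 * (2 * 2 ^ s * (T.card + 1) * (3 * 2 ^ s)) ^ 2 ^ T.card * (FF s T - 4 / 3) := by
  have h0 : (1 : ℚ) ≤ 2 ^ s := one_le_pow₀ one_le_two
  refine gap (fun x => x.2) T (fun A => FF s A - 4 / 3) h0 (by linarith) (fun a ha => (hT a ha).1)
    (fun A hA a ha ha' => ?_) (fun A hA h1 => ?_) (by linarith)
  · obtain ⟨h1, h2⟩ := FF_step (fun x hx => (hT x (hA hx)).1) ha' (hT a ha).1 (hT a ha).2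
    exact ⟨by linarith, by linarith⟩
  · obtain ⟨z, hz⟩ := FF_int fun x hx => hT x (hA hx)
    have h2 : 0 < 3 * 2 ^ s * (∏ a ∈ A, (a.2 : ℚ)) * (FF s A - 4 / 3) :=
      mul_pos (mul_pos (by positivity) (prod_pos fun x hx => by
        exact_mod_cast (hT x (hA hx)).1)) h1
    have h3 : 3 * 2 ^ s * (∏ a ∈ A, (a.2 : ℚ)) * (FF s A - 4 / 3)
        = (3 * z - 4 * 2 ^ s * ∏ a ∈ A, (a.2 : ℤ) : ℤ) := by
      push_cast
      rw [← hz]
      ring
    rw [h3] at h2 ⊢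
    exact_mod_cast h2

end Pool.Agent.Lib.MP_df8f2d_nt
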